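import Pool.Agent.L0h92.Orb.Geo

/-!
# Finite orbits on curves without separated multiples

Not a hand-in (withdrawn): the result follows from the dichotomy for self-correspondences on curves of
J. Bellaïche (On self-correspondences on curves, Algebra and Number Theory 2023), applied to the
fibre product of the curve with itself over the `y`-line and its two maps to the `x`-line, together with
the theorem of Fried (1978).
-/

set_option autoImplicit false

namespace Pool.Agent.Results.MP_f5f7dd_ag.FiniteOrbits

open Pool.Agent.L0h92.Orb

/-- Let `K` be an algebraically closed field of characteristic `0` and let `p ∈ K[x, y]` be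
irreducible, neither in `K[x]` nor in `K[y]`. If the field `F(p)` of separated multiples of `p` is
trivial, then the curve `C ⊆ ℙ¹ × ℙ¹` of `p` has only finitely many finite orbits. -/
theorem result {K : Type*} [Field K] [IsAlgClosed K] [CharZero K]
    (p : Polynomial (Polynomial K)) (hp : Irreducible p)
    (hx : p ∉ Set.range (Polynomial.C : Polynomial K → Polynomial (Polynomial K)))
    (hy : p ∉ Set.range (Polynomial.map Polynomial.C : Polynomial K → Polynomial (Polynomial K)))
    (htriv : SepTrivial p) :
    {O : Set (curve p) | O.Finite ∧ ∃ z : curve p, O = orbit p z}.Finite :=
  finite_orbits hp hy hx htriv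

end Pool.Agent.Results.MP_f5f7dd_ag.FiniteOrbits
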